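import Pool.Agent.Helper61_ZAR.EXB

/-!
# Row EXA: existence of the secant surface `α`
-/

namespace Pool.Agent.ZAR.H61

open MvPowerSeries

section

variable {K L : Type} [Field K] [Field L] [Algebra K L]

theorem fB_const (v : Fin 6 → K) (j : Fin 5) : constantCoeff (fB v j) = 0 := by
  fin_cases j <;> simp [fB]

/-- the linear part of `gB` -/
def linB (a b g v4 v5 : L) : Matrix (Fin 5) (Fin 5) L :=
  !![0, 0, 0, 0, 0; 0, a, 0, 0, 0; -b, g, 0, 0, 0; 0, v4, 1, 0, 0; 0, v5, 0, 1, 0]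

theorem gB_lix (v : Fin 6 → L) (j : Fin 5) :
    Lix (fun y : Fin 5 → MvPowerSeries (Fin 2) L => gB v (y 0) ![y 1, y 2, y 3] j -
      ∑ l, C (linB (v 2) (v 1 ^ 2) (v 3) (v 4) (v 5) j l) * y l) := by
  fin_cases j
  · -- first component
    have e : (fun y : Fin 5 → MvPowerSeries (Fin 2) L => gB v (y 0) ![y 1, y 2, y 3] 0 -
        ∑ l, C (linB (v 2) (v 1 ^ 2) (v 3) (v 4) (v 5) 0 l) * y l) =
        fun y => -((1 - X 0 ^ 2 * y 1) * (C (v 2) + C (v 1 ^ 2) * (X 1 - X 0 ^ 3 * y 3) * X 0 *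
          (1 - X 0 ^ 2 * y 1))) ^ 3 := by
      funext y
      simp [gB, linB, Fin.sum_univ_succ]
    show Lix (fun y : Fin 5 → MvPowerSeries (Fin 2) L => gB v (y 0) ![y 1, y 2, y 3] 0 -
        ∑ l, C (linB (v 2) (v 1 ^ 2) (v 3) (v 4) (v 5) 0 l) * y l)
    rw [e]
    have h0 : Lix (fun y : Fin 5 → MvPowerSeries (Fin 2) L =>
        ((1 - X 0 ^ 2 * y 1) * (C (v 2) + C (v 1 ^ 2) * (X 1 - X 0 ^ 3 * y 3) * X 0 *
          (1 - X 0 ^ 2 * y 1))) ^ 3) := by
      refine Lix.pow (Lix.mul one_sub_lix (Lix.add (Lix.const _) (Lix.mul (Lix.mul ?_ ?_)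
        one_sub_lix))) 3
      · exact Lix.mul (Lix.const _) (Lix.sub (Lix.const _) (Lix.xmul (Lip.proj 3) _ X0pow3_mem))
      · exact Lix.const _
    have h1 := Lix.sub (Lix.const (L := L) 0) h0
    simpa using h1
  · have e : (fun y : Fin 5 → MvPowerSeries (Fin 2) L => gB v (y 0) ![y 1, y 2, y 3] 1 -
        ∑ l, C (linB (v 2) (v 1 ^ 2) (v 3) (v 4) (v 5) 1 l) * y l) =
        fun y => X 0 * (C (v 1 ^ 2) * (2 * X 1 * y 1 - X 0 ^ 2 * X 1 * y 1 ^ 2 +
          X 0 * y 3 * (1 - X 0 ^ 2 * y 1) ^ 2)) := by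
      funext y
      simp [gB, linB, Fin.sum_univ_succ]
      ring
    show Lix (fun y : Fin 5 → MvPowerSeries (Fin 2) L => gB v (y 0) ![y 1, y 2, y 3] 1 -
        ∑ l, C (linB (v 2) (v 1 ^ 2) (v 3) (v 4) (v 5) 1 l) * y l)
    rw [e]
    refine Lix.xmul ?_ _ (X_mem_mm 2 0)
    have h1 : Lip (fun y : Fin 5 → MvPowerSeries (Fin 2) L => 1 - X 0 ^ 2 * y 1) :=
      Lip.sub (Lip.const _) (Lip.mul (Lip.const _) (Lip.proj 1))
    refine Lip.mul (Lip.const _) (Lip.add (Lip.sub ?_ ?_) ?_)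
    · exact Lip.mul (Lip.const _) (Lip.proj 1)
    · exact Lip.mul (Lip.const _) (Lip.pow (Lip.proj 1) 2)
    · exact Lip.mul (Lip.mul (Lip.const _) (Lip.proj 3)) (Lip.pow h1 2)
  · have e : (fun y : Fin 5 → MvPowerSeries (Fin 2) L => gB v (y 0) ![y 1, y 2, y 3] 2 -
        ∑ l, C (linB (v 2) (v 1 ^ 2) (v 3) (v 4) (v 5) 2 l) * y l) =
        fun y => X 0 * (C (v 1 ^ 2) * ((2 * X 0 * y 1 - X 0 ^ 3 * y 1 ^ 2) * y 0 +
            X 0 * (1 - X 0 ^ 2 * y 1) ^ 2 * y 2)) := by
      funext y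
      simp [gB, linB, Fin.sum_univ_succ]
      ring
    show Lix (fun y : Fin 5 → MvPowerSeries (Fin 2) L => gB v (y 0) ![y 1, y 2, y 3] 2 -
        ∑ l, C (linB (v 2) (v 1 ^ 2) (v 3) (v 4) (v 5) 2 l) * y l)
    rw [e]
    refine Lix.xmul ?_ _ (X_mem_mm 2 0)
    have h1 : Lip (fun y : Fin 5 → MvPowerSeries (Fin 2) L => 1 - X 0 ^ 2 * y 1) :=
      Lip.sub (Lip.const _) (Lip.mul (Lip.const _) (Lip.proj 1))
    refine Lip.mul (Lip.const _) (Lip.add (Lip.mul (Lip.sub ?_ ?_) (Lip.proj 0)) ?_)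
    · exact Lip.mul (Lip.const _) (Lip.proj 1)
    · exact Lip.mul (Lip.const _) (Lip.pow (Lip.proj 1) 2)
    · exact Lip.mul (Lip.mul (Lip.const _) (Lip.pow h1 2)) (Lip.proj 2)
  · have e : (fun y : Fin 5 → MvPowerSeries (Fin 2) L => gB v (y 0) ![y 1, y 2, y 3] 3 -
        ∑ l, C (linB (v 2) (v 1 ^ 2) (v 3) (v 4) (v 5) 3 l) * y l) = fun y => 0 := by
      funext y
      simp [gB, linB, Fin.sum_univ_succ]
      ring
    show Lix (fun y : Fin 5 → MvPowerSeries (Fin 2) L => gB v (y 0) ![y 1, y 2, y 3] 3 -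
        ∑ l, C (linB (v 2) (v 1 ^ 2) (v 3) (v 4) (v 5) 3 l) * y l)
    rw [e]
    exact Lix.const _
  · have e : (fun y : Fin 5 → MvPowerSeries (Fin 2) L => gB v (y 0) ![y 1, y 2, y 3] 4 -
        ∑ l, C (linB (v 2) (v 1 ^ 2) (v 3) (v 4) (v 5) 4 l) * y l) = fun y => 0 := by
      funext y
      simp [gB, linB, Fin.sum_univ_succ]
      ring
    show Lix (fun y : Fin 5 → MvPowerSeries (Fin 2) L => gB v (y 0) ![y 1, y 2, y 3] 4 -
        ∑ l, C (linB (v 2) (v 1 ^ 2) (v 3) (v 4) (v 5) 4 l) * y l)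
    rw [e]
    exact Lix.const _

/-- the constant terms of `gB` -/
theorem gB_const (v : Fin 6 → L) (y0 : Fin 5 → L) (j : Fin 5) :
    constantCoeff (gB v (C (y0 0)) ![C (y0 1), C (y0 2), C (y0 3)] j) =
      (![-(v 2 ^ 3), 0, 0, 0, 0] : Fin 5 → L) j +
        ∑ l, linB (v 2) (v 1 ^ 2) (v 3) (v 4) (v 5) j l * y0 l := by
  fin_cases j <;> simp [gB, linB, Fin.sum_univ_succ] <;> ring

theorem exa (hNEW : NEWStmt) (hHAD : HADStmt) (hGID : GIDStmt) (hGVK : GVKStmt) : EXAStmt := by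
  intro K L _ _ _ _ u v φ hu hv1 hv2 hv3 hφ
  classical
  -- constants
  set a : L := algebraMap K L (v 2) with ha
  set b : L := (algebraMap K L (v 1)) ^ 2 with hb
  set g : L := algebraMap K L (v 3) with hg
  set v4 : L := algebraMap K L (v 4) with hv4
  set v5 : L := algebraMap K L (v 5) with hv5
  have hinj : Function.Injective (algebraMap K L) := (algebraMap K L).injective
  have ha0 : a ≠ 0 := by
    rw [ha, Ne, _root_.map_eq_zero]
    exact hv2
  have hb0 : b ≠ 0 := by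
    refine pow_ne_zero 2 ?_
    rw [Ne, _root_.map_eq_zero]
    exact hv1
  have hg0 : g ≠ 0 := by
    rw [hg, Ne, _root_.map_eq_zero]
    exact hv3
  set N0 : Matrix (Fin 5) (Fin 5) K := jac0 φ with hN0
  set Ni : Matrix (Fin 5) (Fin 5) K := N0⁻¹ with hNi
  have hdetN : IsUnit N0.det := IsUnit.mk0 _ hφ.2
  have hNNi : N0 * Ni = 1 := Matrix.mul_nonsing_inv _ hdetN
  have hNiN : Ni * N0 = 1 := Matrix.nonsing_inv_mul _ hdetN
  set w : Fin 5 → L := kv u with hw
  set w' : Fin 5 → L := fun m => ∑ j, algebraMap K L (Ni m j) * w j with hw'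
  have hNw : ∀ i, ∑ m, algebraMap K L (N0 i m) * w' m = w i := by
    intro i
    have h1 : ∑ m, algebraMap K L (N0 i m) * w' m =
        ∑ j, algebraMap K L ((N0 * Ni) i j) * w j := by
      rw [hw']
      simp only
      simp_rw [Finset.mul_sum]
      rw [Finset.sum_comm]
      refine Finset.sum_congr rfl fun j _ => ?_
      rw [Matrix.mul_apply, map_sum, Finset.sum_mul]
      refine Finset.sum_congr rfl fun m _ => ?_
      rw [map_mul]
      ring
    rw [h1, hNNi, Finset.sum_eq_single i]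
    · simp
    · intro j _ hj
      rw [Matrix.one_apply_ne hj.symm, map_zero, zero_mul]
    · intro h
      exact absurd (Finset.mem_univ i) h
  -- w' 0 ≠ 0
  have hw0 : w' 0 ≠ 0 := by
    have hex : ∃ j, Ni 0 j ≠ 0 := by
      by_contra hcon
      push Not at hcon
      have h1 := congrFun (congrFun hNiN 0) 0
      rw [Matrix.mul_apply, Matrix.one_apply_eq] at h1
      simp [hcon] at h1
    obtain ⟨j, hj⟩ := hex
    exact lin_ne hGVK u hu (Ni 0) j hj
  have hw12 : a * w' 2 - g * w' 1 ≠ 0 := by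
    have hex : ∃ j, v 2 * Ni 2 j - v 3 * Ni 1 j ≠ 0 := by
      by_contra hcon
      push Not at hcon
      have h1 : ∑ j, (v 2 * Ni 2 j - v 3 * Ni 1 j) * N0 j 2 = v 2 * (Ni * N0) 2 2 -
          v 3 * (Ni * N0) 1 2 := by
        rw [Matrix.mul_apply, Matrix.mul_apply, Finset.mul_sum, Finset.mul_sum,
          ← Finset.sum_sub_distrib]
        refine Finset.sum_congr rfl fun j _ => by ring
      rw [hNiN, Matrix.one_apply_eq, Matrix.one_apply_ne (by decide)] at h1
      simp only [hcon, zero_mul, Finset.sum_const_zero, mul_one, mul_zero, sub_zero] at h1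
      exact hv2 h1.symm
    obtain ⟨j, hj⟩ := hex
    have h2 := lin_ne hGVK u hu (fun j => v 2 * Ni 2 j - v 3 * Ni 1 j) j hj
    have h3 : a * w' 2 - g * w' 1 =
        ∑ j, algebraMap K L (v 2 * Ni 2 j - v 3 * Ni 1 j) * kv u j := by
      rw [hw']
      simp only
      rw [Finset.mul_sum, Finset.mul_sum, ← Finset.sum_sub_distrib]
      refine Finset.sum_congr rfl fun j _ => ?_
      rw [map_sub, map_mul, map_mul]
      ring
    rw [h3]
    exact h2
  -- the approximate solution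
  set rho : L := -(a ^ 3) / w' 0 with hrho
  set e1 : L := rho * w' 1 / a with he1
  set e0 : L := (g * e1 - rho * w' 2) / b with he0
  set y0 : Fin 5 → L := ![e0, e1, rho * w' 3 - v4 * e1, rho * w' 4 - v5 * e1, rho] with hy0
  have hrho0 : rho ≠ 0 := div_ne_zero (neg_ne_zero.2 (pow_ne_zero 3 ha0)) hw0
  have he00 : e0 ≠ 0 := by
    have h1 : e0 = -(rho * (a * w' 2 - g * w' 1)) / (a * b) := by
      rw [he0, he1]
      field_simp
      ring
    rw [h1]
    exact div_ne_zero (neg_ne_zero.2 (mul_ne_zero hrho0 hw12)) (mul_ne_zero ha0 hb0)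
  set Lin : Matrix (Fin 5) (Fin 5) L := linB a b g v4 v5 with hLin
  set cc : Fin 5 → L := ![-(a ^ 3), 0, 0, 0, 0] with hcc
  have hsys : ∀ m, cc m + ∑ l, Lin m l * y0 l = rho * w' m := by
    intro m
    fin_cases m
    · simp [hcc, hLin, linB, hy0, Fin.sum_univ_succ]
      rw [hrho]
      field_simp
    · simp [hcc, hLin, linB, hy0, Fin.sum_univ_succ]
      rw [he1]
      field_simp
    · simp [hcc, hLin, linB, hy0, Fin.sum_univ_succ]
      rw [he0]
      field_simp
      ring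
    · simp [hcc, hLin, linB, hy0, Fin.sum_univ_succ]
    · simp [hcc, hLin, linB, hy0, Fin.sum_univ_succ]
  set N : Matrix (Fin 5) (Fin 5) L := N0.map (algebraMap K L) with hN
  set R : Matrix (Fin 5) (Fin 5) L := fun m l => Lin m l - if l = 4 then w' m else 0 with hR
  have hdetR : R.det ≠ 0 := by
    intro hdet
    obtain ⟨x, hx, hRx⟩ := Matrix.exists_mulVec_eq_zero_iff.2 hdet
    apply hx
    have r0 := congrFun hRx 0
    have r1 := congrFun hRx 1
    have r2 := congrFun hRx 2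
    have r3 := congrFun hRx 3
    have r4 := congrFun hRx 4
    simp [Matrix.mulVec, dotProduct, hR, hLin, linB, Fin.sum_univ_succ] at r0 r1 r2 r3 r4
    have x4 : x 4 = 0 := by
      rcases r0 with h | h
      · exact absurd h hw0
      · exact h
    rw [x4] at r1 r2 r3 r4
    simp only [mul_zero, neg_zero, add_zero] at r1 r2 r3 r4
    have x1 : x 1 = 0 := by
      rcases mul_eq_zero.1 r1 with h | h
      · exact absurd h ha0
      · exact h
    rw [x1] at r2 r3 r4
    simp only [mul_zero, add_zero, zero_add] at r2 r3 r4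
    have x0 : x 0 = 0 := by
      rcases mul_eq_zero.1 (neg_eq_zero.1 r2) with h | h
      · exact absurd h hb0
      · exact h
    funext l
    fin_cases l
    · exact x0
    · exact x1
    · exact r3
    · exact r4
    · exact x4
  have hdetN' : N.det ≠ 0 := by
    have h1 : N.det = algebraMap K L N0.det := (RingHom.map_det (algebraMap K L) N0).symm
    rw [h1, Ne, _root_.map_eq_zero]
    exact hφ.2
  have hdetM : (N * R).det ≠ 0 := by
    rw [Matrix.det_mul]
    exact mul_ne_zero hdetN' hdetR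
  have hM : ∀ i l, (N * R) i l = ∑ m, N i m * Lin m l - if l = 4 then w i else 0 := by
    intro i l
    rw [Matrix.mul_apply]
    have h1 : ∀ m, N i m * R m l = N i m * Lin m l - if l = 4 then N i m * w' m else 0 := by
      intro m
      rw [hR]
      simp only
      split_ifs <;> ring
    simp_rw [h1]
    rw [Finset.sum_sub_distrib]
    congr 1
    split_ifs
    · rw [← hNw i]
      rfl
    · simp
  have hNc : ∀ i j, constantCoeff (pderiv L j (bc K L (Fin 5) (φ i))) = N i j := by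
    intro i j
    rw [hN, Matrix.map_apply, hN0]
    unfold jac0
    rw [Matrix.of_apply, ← coeff_zero_eq_constantCoeff_apply, ← coeff_zero_eq_constantCoeff_apply,
      coeff_pderiv, coeff_pderiv, bc, coeff_map]
    simp
  have hy4 : ∀ i, ∑ m, N i m * (cc m + ∑ l, Lin m l * y0 l) = w i * y0 4 := by
    intro i
    simp_rw [hsys]
    rw [← hNw i, Finset.sum_mul]
    refine Finset.sum_congr rfl fun m _ => ?_
    have h1 : y0 4 = rho := by
      rw [hy0]
      rfl
    rw [h1, hN, Matrix.map_apply]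
    ring
  obtain ⟨y, hyc, hy⟩ := core hNEW hHAD (fun i => bc K L (Fin 5) (φ i))
    (fun y j => subst (prm (y 0)) (bc K L (Fin 3) (fA v j)))
    (fun y j => subst (prm' (y 0) ![y 1, y 2, y 3]) (bc K L (Fin 3) (fB v j)))
    (fun y j => gB (fun i => algebraMap K L (v i)) (y 0) ![y 1, y 2, y 3] j)
    N Lin (N * R) w y0 cc hNc
    (fun y j => by
      rw [constantCoeff_subst' _ _ (prm_const _)]
      exact bc_const _ (fA_const v j))
    (fun y j => by
      rw [constantCoeff_subst' _ _ (prm'_const _ _)]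
      exact bc_const _ (fB_const v j))
    (fun j => subst_lix hHAD _ _ (fun y => prm_const (y 0)) prm_lix)
    (fun j => subst_lix hHAD _ _ (fun y => prm'_const (y 0) ![y 1, y 2, y 3]) prm'_lix)
    (fun j => gB_lix (fun i => algebraMap K L (v i)) j)
    (fun j => gB_const (fun i => algebraMap K L (v i)) y0 j)
    (fun y j => (hGID K L v (y 0) ![y 1, y 2, y 3] j).1)
    hM hdetM hy4
  refine ⟨y 0, ![y 1, y 2, y 3], y 4, fun i => hy i, ?_, ?_⟩
  · rw [hyc 0]
    exact he00
  · rw [hyc 4]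
    exact hrho0

end

end Pool.Agent.ZAR.H61
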