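import Pool.Agent.ZAR.Stmts

/-!
# Newton iteration for secant surfaces (used for rows EXB, EXA)
-/

namespace Pool.Agent.ZAR.H61

open MvPowerSeries

section tools

variable {L : Type} [Field L]

/-- the ideal generated by the variables -/
noncomputable abbrev mm (n : ℕ) (L : Type) [Field L] : Ideal (MvPowerSeries (Fin n) L) :=
  Ideal.span (Set.range (X : Fin n → MvPowerSeries (Fin n) L))

theorem X_mem_mm (n : ℕ) (i : Fin n) : (X i : MvPowerSeries (Fin n) L) ∈ mm n L :=
  Ideal.subset_span ⟨i, rfl⟩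

theorem mem_mm_iff (hHAD : HADStmt) {n : ℕ} (f : MvPowerSeries (Fin n) L) :
    f ∈ mm n L ↔ constantCoeff f = 0 := by
  constructor
  · intro hf
    have h1 : mm n L ≤ RingHom.ker (constantCoeff (σ := Fin n) (R := L)) := by
      rw [Ideal.span_le]
      rintro _ ⟨i, rfl⟩
      simp [RingHom.mem_ker]
    exact h1 hf
  · intro hf
    obtain ⟨q, hq⟩ := hHAD L (Fin n) f
    have h1 := (hq (Fin n) X 0 (fun i => constantCoeff_X i) (fun i => map_zero _)).1
    rw [subst_self, id, subst_zero_of_constantCoeff_zero hf, sub_zero] at h1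
    rw [h1]
    refine Ideal.sum_mem _ fun i _ => ?_
    rw [Pi.zero_apply, sub_zero]
    exact Ideal.mul_mem_right _ _ (X_mem_mm n i)

theorem subst_sub_mem (hHAD : HADStmt) {σ : Type} [Fintype σ] (f : MvPowerSeries σ L) {n : ℕ}
    (a b : σ → MvPowerSeries (Fin n) L) (ha : ∀ i, constantCoeff (a i) = 0)
    (hb : ∀ i, constantCoeff (b i) = 0) (I : Ideal (MvPowerSeries (Fin n) L))
    (h : ∀ i, a i - b i ∈ I) : subst a f - subst b f ∈ I := by
  obtain ⟨q, hq⟩ := hHAD L σ f
  rw [(hq (Fin n) a b ha hb).1]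
  exact Ideal.sum_mem _ fun i _ => Ideal.mul_mem_right _ _ (h i)

theorem constantCoeff_subst' {σ : Type} [Fintype σ] (f : MvPowerSeries σ L) {n : ℕ}
    (a : σ → MvPowerSeries (Fin n) L) (ha : ∀ i, constantCoeff (a i) = 0) :
    constantCoeff (subst a f) = constantCoeff f := by
  have hs : HasSubst a := hasSubst_of_constantCoeff_zero ha
  have h1 : constantCoeff (subst a (f - C (constantCoeff f))) = 0 :=
    constantCoeff_subst_eq_zero hs ha (by simp)
  rw [subst_sub hs, subst_C, map_sub, constantCoeff_C, sub_eq_zero] at h1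
  exact h1

end tools

section lip

variable {L : Type} [Field L]

/-- Lipschitz functions -/
def Lip (P : (Fin 5 → MvPowerSeries (Fin 2) L) → MvPowerSeries (Fin 2) L) : Prop :=
  ∀ (I : Ideal (MvPowerSeries (Fin 2) L)) (y y' : Fin 5 → MvPowerSeries (Fin 2) L),
    (∀ i, y i - y' i ∈ I) → P y - P y' ∈ I

/-- contracting functions -/
def Lix (P : (Fin 5 → MvPowerSeries (Fin 2) L) → MvPowerSeries (Fin 2) L) : Prop :=
  ∀ (I : Ideal (MvPowerSeries (Fin 2) L)) (y y' : Fin 5 → MvPowerSeries (Fin 2) L),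
    (∀ i, y i - y' i ∈ I) → P y - P y' ∈ mm 2 L * I

variable {P Q : (Fin 5 → MvPowerSeries (Fin 2) L) → MvPowerSeries (Fin 2) L}

theorem Lip.const (c : MvPowerSeries (Fin 2) L) : Lip (fun _ => c) := by
  intro I y y' _
  simp

theorem Lip.proj (i : Fin 5) : Lip (L := L) (fun y => y i) := fun _ _ _ h => h i

theorem Lip.add (hP : Lip P) (hQ : Lip Q) : Lip (fun y => P y + Q y) := by
  intro I y y' h
  have e : P y + Q y - (P y' + Q y') = (P y - P y') + (Q y - Q y') := by ring
  rw [e]
  exact Ideal.add_mem _ (hP I y y' h) (hQ I y y' h)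

theorem Lip.sub (hP : Lip P) (hQ : Lip Q) : Lip (fun y => P y - Q y) := by
  intro I y y' h
  have e : P y - Q y - (P y' - Q y') = (P y - P y') - (Q y - Q y') := by ring
  rw [e]
  exact Ideal.sub_mem _ (hP I y y' h) (hQ I y y' h)

theorem Lip.mul (hP : Lip P) (hQ : Lip Q) : Lip (fun y => P y * Q y) := by
  intro I y y' h
  have e : P y * Q y - P y' * Q y' = P y * (Q y - Q y') + Q y' * (P y - P y') := by ring
  rw [e]
  exact Ideal.add_mem _ (Ideal.mul_mem_left _ _ (hQ I y y' h))
    (Ideal.mul_mem_left _ _ (hP I y y' h))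

theorem Lip.pow (hP : Lip P) (k : ℕ) : Lip (fun y => P y ^ k) := by
  induction k with
  | zero => simpa using Lip.const (L := L) 1
  | succ k ih =>
    have h := ih.mul hP
    simpa only [pow_succ] using h

theorem Lix.const (c : MvPowerSeries (Fin 2) L) : Lix (fun _ => c) := by
  intro I y y' _
  simp

theorem Lix.xmul (hP : Lip P) (s : MvPowerSeries (Fin 2) L) (hs : s ∈ mm 2 L) :
    Lix (fun y => s * P y) := by
  intro I y y' h
  have e : s * P y - s * P y' = s * (P y - P y') := by ring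
  rw [e]
  exact Ideal.mul_mem_mul hs (hP I y y' h)

theorem Lix.add (hP : Lix P) (hQ : Lix Q) : Lix (fun y => P y + Q y) := by
  intro I y y' h
  have e : P y + Q y - (P y' + Q y') = (P y - P y') + (Q y - Q y') := by ring
  rw [e]
  exact Ideal.add_mem _ (hP I y y' h) (hQ I y y' h)

theorem Lix.sub (hP : Lix P) (hQ : Lix Q) : Lix (fun y => P y - Q y) := by
  intro I y y' h
  have e : P y - Q y - (P y' - Q y') = (P y - P y') - (Q y - Q y') := by ring
  rw [e]
  exact Ideal.sub_mem _ (hP I y y' h) (hQ I y y' h)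

theorem Lix.mul (hP : Lix P) (hQ : Lix Q) : Lix (fun y => P y * Q y) := by
  intro I y y' h
  have e : P y * Q y - P y' * Q y' = P y * (Q y - Q y') + Q y' * (P y - P y') := by ring
  rw [e]
  exact Ideal.add_mem _ (Ideal.mul_mem_left _ _ (hQ I y y' h))
    (Ideal.mul_mem_left _ _ (hP I y y' h))

theorem Lix.pow (hP : Lix P) (k : ℕ) : Lix (fun y => P y ^ k) := by
  induction k with
  | zero => simpa using Lix.const (L := L) 1
  | succ k ih =>
    have h := ih.mul hP
    simpa only [pow_succ] using h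

end lip

section core

variable {L : Type} [Field L]

theorem core (hNEW : NEWStmt) (hHAD : HADStmt) (φ : Fin 5 → MvPowerSeries (Fin 5) L)
    (A B g : (Fin 5 → MvPowerSeries (Fin 2) L) → Fin 5 → MvPowerSeries (Fin 2) L)
    (N Lin M : Matrix (Fin 5) (Fin 5) L) (w y0 c : Fin 5 → L)
    (hN : ∀ i j, constantCoeff (pderiv L j (φ i)) = N i j)
    (hA0 : ∀ y j, constantCoeff (A y j) = 0) (hB0 : ∀ y j, constantCoeff (B y j) = 0)
    (hAc : ∀ j, Lix (fun y => A y j)) (hBc : ∀ j, Lix (fun y => B y j))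
    (hgc : ∀ j, Lix (fun y => g y j - ∑ l, C (Lin j l) * y l))
    (hg0 : ∀ j, constantCoeff (g (fun l => C (y0 l)) j) = c j + ∑ l, Lin j l * y0 l)
    (hdiff : ∀ y j, A y j - B y j = X 0 ^ 3 * g y j)
    (hM : ∀ i l, M i l = ∑ m, N i m * Lin m l - if l = 4 then w i else 0) (hdet : M.det ≠ 0)
    (hy0 : ∀ i, ∑ m, N i m * (c m + ∑ l, Lin m l * y0 l) = w i * y0 4) :
    ∃ y : Fin 5 → MvPowerSeries (Fin 2) L, (∀ l, constantCoeff (y l) = y0 l) ∧
      ∀ i, subst (A y) (φ i) - subst (B y) (φ i) = C (w i) * X 0 ^ 3 * y 4 := by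
  classical
  choose q hq using fun i => hHAD L (Fin 5) (φ i)
  set Q : (Fin 5 → MvPowerSeries (Fin 2) L) → Fin 5 → Fin 5 → MvPowerSeries (Fin 2) L :=
    fun y i m => subst (Sum.elim (A y) (B y)) (q i m) with hQdef
  have hAB0 : ∀ y (s : Fin 5 ⊕ Fin 5), constantCoeff (Sum.elim (A y) (B y) s) = 0 := by
    intro y s
    rcases s with s | s
    · exact hA0 y s
    · exact hB0 y s
  have hq0 : ∀ i m, constantCoeff (q i m) = N i m := by
    intro i m
    have h1 := (hq i (Fin 2) (fun _ => 0) (fun _ => 0) (fun _ => map_zero _)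
      (fun _ => map_zero _)).2 m
    have h2 := congrArg constantCoeff h1
    rw [constantCoeff_subst' _ _ (by intro s; rcases s with s | s <;> simp),
      constantCoeff_subst' _ _ (fun _ => map_zero _), hN] at h2
    exact h2
  have hQ0 : ∀ y i m, constantCoeff (Q y i m) = N i m := by
    intro y i m
    rw [hQdef]
    simp only
    rw [constantCoeff_subst' _ _ (hAB0 y), hq0]
  have hQN : ∀ y i m, Q y i m - C (N i m) ∈ mm 2 L := by
    intro y i m
    rw [mem_mm_iff hHAD, map_sub, hQ0, constantCoeff_C, sub_self]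
  have hQc : ∀ (I : Ideal (MvPowerSeries (Fin 2) L)) (y y' : Fin 5 → MvPowerSeries (Fin 2) L),
      (∀ i, y i - y' i ∈ I) → ∀ i m, Q y i m - Q y' i m ∈ mm 2 L * I := by
    intro I y y' h i m
    refine subst_sub_mem hHAD (q i m) _ _ (hAB0 y) (hAB0 y') _ fun s => ?_
    rcases s with s | s
    · exact hAc s I y y' h
    · exact hBc s I y y' h
  set F : (Fin 5 → MvPowerSeries (Fin 2) L) → (Fin 5 → MvPowerSeries (Fin 2) L) :=
    fun y i => ∑ m, g y m * Q y i m - C (w i) * y 4 with hF
  have hunit : IsUnit (M.map (C (σ := Fin 2) (R := L))).det := by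
    have h1 : (M.map (C (σ := Fin 2) (R := L))).det = C M.det :=
      (RingHom.map_det (C (σ := Fin 2) (R := L)) M).symm
    rw [h1]
    exact (IsUnit.mk0 _ hdet).map _
  have hF0 : ∀ i, F (fun l => C (y0 l)) i ∈ mm 2 L := by
    intro i
    rw [mem_mm_iff hHAD, hF]
    simp only
    rw [map_sub, map_sum, map_mul, constantCoeff_C, constantCoeff_C, ← hy0 i, sub_eq_zero]
    refine Finset.sum_congr rfl fun m _ => ?_
    rw [map_mul, hQ0, hg0]
    ring
  have hcon : ∀ (k : ℕ) (y y' : Fin 5 → MvPowerSeries (Fin 2) L),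
      (∀ i, y i - C (y0 i) ∈ mm 2 L) → (∀ i, y' i - C (y0 i) ∈ mm 2 L) →
      (∀ i, y i - y' i ∈ mm 2 L ^ k) → ∀ i, F y i - F y' i -
        ((M.map (C (σ := Fin 2) (R := L))).mulVec (y - y')) i ∈ mm 2 L ^ (k + 1) := by
    intro k y y' _ _ hk i
    have e1 : ((M.map (C (σ := Fin 2) (R := L))).mulVec (y - y')) i =
        ∑ m, C (N i m) * (∑ l, C (Lin m l) * (y l - y' l)) - C (w i) * (y 4 - y' 4) := by
      have h2 : ∀ l, C (M i l) * (y l - y' l) =
          ∑ m, C (N i m) * (C (Lin m l) * (y l - y' l)) -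
            (if l = 4 then C (w i) * (y l - y' l) else 0) := by
        intro l
        rw [hM, map_sub, map_sum, sub_mul, Finset.sum_mul]
        congr 1
        · refine Finset.sum_congr rfl fun m _ => ?_
          rw [map_mul]
          ring
        · split_ifs <;> simp
      simp only [Matrix.mulVec, dotProduct, Matrix.map_apply, Pi.sub_apply]
      simp_rw [h2]
      rw [Finset.sum_sub_distrib, Finset.sum_comm]
      congr 1
      · refine Finset.sum_congr rfl fun m _ => ?_
        rw [Finset.mul_sum]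
      · rw [Finset.sum_ite_eq' Finset.univ (4 : Fin 5)]
        simp
    have e2 : F y i - F y' i - ((M.map (C (σ := Fin 2) (R := L))).mulVec (y - y')) i =
        ∑ m, (g y m * (Q y i m - Q y' i m) +
          Q y' i m * ((g y m - ∑ l, C (Lin m l) * y l) - (g y' m - ∑ l, C (Lin m l) * y' l)) +
          (Q y' i m - C (N i m)) * ∑ l, C (Lin m l) * (y l - y' l)) := by
      rw [e1, hF]
      simp only
      have h3 : ∑ m, g y m * Q y i m - C (w i) * y 4 -
          (∑ m, g y' m * Q y' i m - C (w i) * y' 4) -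
          (∑ m, C (N i m) * (∑ l, C (Lin m l) * (y l - y' l)) - C (w i) * (y 4 - y' 4)) =
          ∑ m, g y m * Q y i m - ∑ m, g y' m * Q y' i m -
            ∑ m, C (N i m) * (∑ l, C (Lin m l) * (y l - y' l)) := by ring
      rw [h3, ← Finset.sum_sub_distrib, ← Finset.sum_sub_distrib]
      refine Finset.sum_congr rfl fun m _ => ?_
      have h4 : ∑ l, C (Lin m l) * (y l - y' l) =
          ∑ l, C (Lin m l) * y l - ∑ l, C (Lin m l) * y' l := by
        rw [← Finset.sum_sub_distrib]
        refine Finset.sum_congr rfl fun l _ => by ring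
      rw [h4]
      ring
    rw [e2]
    refine Ideal.sum_mem _ fun m _ => ?_
    rw [pow_succ']
    refine Ideal.add_mem _ (Ideal.add_mem _ ?_ ?_) ?_
    · exact Ideal.mul_mem_left _ _ (hQc _ y y' hk i m)
    · exact Ideal.mul_mem_left _ _ (hgc m _ y y' hk)
    · exact Ideal.mul_mem_mul (hQN y' i m)
        (Ideal.sum_mem _ fun l _ => Ideal.mul_mem_left _ _ (hk l))
  obtain ⟨y, hy, hFy⟩ := hNEW (MvPowerSeries (Fin 2) L) (mm 2 L) 5 F
    (M.map (C (σ := Fin 2) (R := L))) (fun l => C (y0 l)) hunit hF0 hcon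
  refine ⟨y, fun l => ?_, fun i => ?_⟩
  · have h1 := (mem_mm_iff hHAD _).1 (hy l)
    rw [map_sub, constantCoeff_C, sub_eq_zero] at h1
    exact h1
  · have h1 := congrFun hFy i
    have h2 : ∑ m, g y m * Q y i m = C (w i) * y 4 := by
      rw [← sub_eq_zero]
      exact h1
    rw [(hq i (Fin 2) (A y) (B y) (hA0 y) (hB0 y)).1]
    calc ∑ m, (A y m - B y m) * subst (Sum.elim (A y) (B y)) (q i m)
        = X 0 ^ 3 * ∑ m, g y m * Q y i m := by
          rw [Finset.mul_sum]
          refine Finset.sum_congr rfl fun m _ => ?_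
          rw [hdiff]
          ring
      _ = C (w i) * X 0 ^ 3 * y 4 := by
          rw [h2]
          ring

end core

section linear

variable {K L : Type} [Field K] [Field L] [Algebra K L]

/-- a nonzero linear form over `K` does not vanish at the kernel vector -/
theorem lin_ne (hGVK : GVKStmt) [CharZero K] {n : ℕ} (u : Fin n → Fin (n + 1) → L) (hu : Gen K u)
    (r : Fin (n + 1) → K) (j : Fin (n + 1)) (hr : r j ≠ 0) :
    ∑ j, algebraMap K L (r j) * kv u j ≠ 0 := by
  have h1 := (hGVK K L n u hu).2 1 (∑ j, MvPolynomial.C (r j) * MvPolynomial.X j)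
    (MvPolynomial.IsHomogeneous.sum _ _ _ fun i _ => MvPolynomial.isHomogeneous_C_mul_X _ _) (by
      intro h0
      have h2 := congrArg (MvPolynomial.coeff (Finsupp.single j 1)) h0
      rw [MvPolynomial.coeff_sum, MvPolynomial.coeff_zero, Finset.sum_eq_single j] at h2
      · rw [MvPolynomial.coeff_C_mul, MvPolynomial.coeff_X', if_pos rfl, mul_one] at h2
        exact hr h2
      · intro i _ hij
        rw [MvPolynomial.coeff_C_mul, MvPolynomial.coeff_X', if_neg, mul_zero]
        intro h3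
        exact hij (Finsupp.single_left_injective one_ne_zero h3)
      · intro h3
        exact absurd (Finset.mem_univ j) h3)
  rw [map_sum] at h1
  simpa using h1

end linear

end Pool.Agent.ZAR.H61
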